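import Pool.Agent.N509.OM.Quo

/-!
# Normal abelian subgroups of the vertex groups which contain the edge groups
-/

set_option autoImplicit false

namespace Pool.Agent.N509.OM

open SimpleGraph
open scoped commutatorElement
open Pool.Agent.Y110.FJ
open Pool.Agent.N509.TK
open Pool.Agent.N509.TX
open Pool.Agent.R941.FJ (C_equiv C_le C_cyc mem_sup_normal)

variable {C : ∀ (G : Type) [Group G], Prop}

/-- extensions with abelian kernel -/
theorem C_abk (hC : ClosedE C) (hM : ∀ (G : Type) [Group G], derivedSeries G 2 = ⊥ → C G)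
    {H P : Type} [Group H] [Group P] (π : H →* P) (hP : C P)
    (hab : ∀ x y : H, π x = 1 → π y = 1 → x * y = y * x) : C H := by
  obtain ⟨N, hN⟩ : ∃ N : Subgroup H, N = π.ker := ⟨_, rfl⟩
  have hn : N.Normal := hN ▸ inferInstance
  have hmem : ∀ x, x ∈ N ↔ π x = 1 := fun x => by rw [hN, MonoidHom.mem_ker]
  have hQ : C (H ⧸ N) := by
    refine hC.base.of_injective _ _ (QuotientGroup.lift N π fun g hg => (hmem g).1 hg) ?_ hP
    rw [injective_iff_map_eq_one]
    intro q hq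
    obtain ⟨g, rfl⟩ := QuotientGroup.mk_surjective q
    exact (QuotientGroup.eq_one_iff g).2 ((hmem g).2 hq)
  have key : ∀ g : H, C ↥(N ⊔ Subgroup.zpowers g) := by
    intro g
    refine hM _ (metab (N.subgroupOf (N ⊔ Subgroup.zpowers g)) ?_ ?_)
    · intro x hx y hy
      exact Subtype.ext (hab x y ((hmem _).1 hx) ((hmem _).1 hy))
    · rintro ⟨x, hx⟩ ⟨y, hy⟩
      obtain ⟨a, ha, _, ⟨i, rfl⟩, rfl⟩ := mem_sup_normal.1 hx
      obtain ⟨b, hb, _, ⟨j, rfl⟩, rfl⟩ := mem_sup_normal.1 hy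
      rw [Subgroup.mem_subgroupOf]
      show ⁅a * g ^ i, b * g ^ j⁆ ∈ N
      rw [hmem, map_commutatorElement, map_mul, map_mul, (hmem a).1 ha, (hmem b).1 hb, one_mul,
        one_mul, commutatorElement_eq_one_iff_mul_comm, map_zpow, map_zpow, ← zpow_add, ← zpow_add,
        add_comm]
  refine Pool.Agent.Y529.FJ.t_ext C hC _ N ?_ hQ fun g _ => key g
  exact C_le hC.base le_sup_left (key 1)

/-- **edge groups in normal abelian subgroups of the vertex groups** -/
theorem cov_abel (hC : ClosedE C) (hM : ∀ (G : Type) [Group G], derivedSeries G 2 = ⊥ → C G)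
    {G V : Type} {T : SimpleGraph V} [Group G] [MulAction G V] {A : V → Subgroup G}
    (hT : T.IsTree) (hact : ∀ (g : G) (u v : V), T.Adj u v → T.Adj (g • u) (g • v))
    (hA : Cov T A) (hQ : Qf C A) (hab : ∀ v, ∀ x ∈ A v, ∀ y ∈ A v, x * y = y * x) : C G := by
  refine cov_hom hC hM hT hact hA hQ ?_ ?_
  · intro v
    obtain ⟨P, _, π, hP, hπ⟩ := hQ v
    refine C_abk hC hM π hP fun x y hx hy => ?_
    exact Subtype.ext (hab v _ ((hπ x).1 hx) _ ((hπ y).1 hy))
  · intro v u _ x _ _ hx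
    have h1 : ⁅A v, A v⁆ ≤ ⊥ := by
      rw [Subgroup.commutator_le]
      intro a ha b hb
      rw [Subgroup.mem_bot, commutatorElement_eq_one_iff_mul_comm]
      exact hab v a ha b hb
    exact h1 hx

/-- an equivariant family from subgroups of the vertex stabilizers -/
theorem exists_cov {G V : Type} {T : SimpleGraph V} [Group G] [MulAction G V]
    (hact : ∀ (g : G) (u v : V), T.Adj u v → T.Adj (g • u) (g • v))
    (Ψ : V → Subgroup G → Prop)
    (hΨ : ∀ (g : G) (v : V) (A : Subgroup G), Ψ v A →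
      Ψ (g • v) (A.comap (MulAut.conj g⁻¹).toMonoidHom))
    (hex : ∀ v : V, ∃ A : Subgroup G, (∀ a ∈ A, a • v = v) ∧
      (∀ g : G, g • v = v → ∀ a ∈ A, g * a * g⁻¹ ∈ A) ∧
      (∀ u : V, T.Adj v u → ∀ x : G, x • v = v → x • u = u → x ∈ A) ∧ Ψ v A) :
    ∃ A : V → Subgroup G, Cov T A ∧ ∀ v, Ψ v (A v) := by
  choose A0 h1 h2 h3 h4 using hex
  let s : Setoid V := MulAction.orbitRel G V
  obtain ⟨rep, hrep⟩ : ∃ rep : V → V, ∀ w, rep w = Quotient.out (Quotient.mk s w) :=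
    ⟨_, fun _ => rfl⟩
  have hex : ∀ w : V, ∃ g : G, g • rep w = w := by
    intro w
    have h6 : s (Quotient.out (Quotient.mk s w)) w := Quotient.mk_out w
    obtain ⟨g, hg⟩ := s.symm h6
    exact ⟨g, by rw [hrep]; exact hg⟩
  have hrg : ∀ (g : G) (w : V), rep (g • w) = rep w := by
    intro g w
    rw [hrep, hrep, show Quotient.mk s (g • w) = Quotient.mk s w from Quotient.sound ⟨g, rfl⟩]
  choose h hh using hex
  have hinv : ∀ w, (h w)⁻¹ • w = rep w := fun w => inv_smul_eq_iff.2 (hh w).symm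
  obtain ⟨A, hAd⟩ : ∃ A : V → Subgroup G,
      ∀ w, A w = (A0 (rep w)).comap (MulAut.conj (h w)⁻¹).toMonoidHom := ⟨_, fun _ => rfl⟩
  have hA : ∀ w x, x ∈ A w ↔ (h w)⁻¹ * x * h w ∈ A0 (rep w) := by
    intro w x
    rw [hAd]
    show (h w)⁻¹ * x * (h w)⁻¹⁻¹ ∈ A0 (rep w) ↔ _
    rw [inv_inv]
  refine ⟨A, ⟨?_, ?_, ?_⟩, ?_⟩
  · intro w r hr
    have h6 := h1 _ _ ((hA w r).1 hr)
    rw [mul_smul, mul_smul, hh, inv_smul_eq_iff, hh] at h6
    exact h6
  · intro g w r hr
    rw [hA] at hr ⊢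
    rw [hrg]
    obtain ⟨t, ht⟩ : ∃ t : G, t = (h (g • w))⁻¹ * g * h w := ⟨_, rfl⟩
    have ht1 : t • rep w = rep w := by
      rw [ht, mul_smul, mul_smul, hh, hinv, hrg]
    have h6 := h2 (rep w) t ht1 _ hr
    have h7 : t * ((h w)⁻¹ * r * h w) * t⁻¹ = (h (g • w))⁻¹ * (g * r * g⁻¹) * h (g • w) := by
      rw [ht]
      group
    rwa [h7] at h6
  · intro v u hvu x hxv hxu
    rw [hA]
    have h6 : T.Adj (rep v) ((h v)⁻¹ • u) := by
      have := hact (h v)⁻¹ _ _ hvu
      rwa [hinv] at this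
    refine h3 (rep v) _ h6 _ ?_ ?_
    · rw [mul_smul, mul_smul, hh, hxv, hinv]
    · rw [mul_smul, mul_smul, smul_inv_smul, hxu]
  · intro v
    have h6 := hΨ (h v) (rep v) _ (h4 (rep v))
    rw [hh, ← hAd] at h6
    exact h6

/-- the condition on the vertex group of `v`: there is a normal subgroup `A` of it which contains the
stabilizers of the edges at `v`, these intersect `[A, A]` only in `1`, and the quotient by `A` embeds in a
group in the class -/
def Nrm (C : ∀ (G : Type) [Group G], Prop) (G : Type) {V : Type} [Group G] [MulAction G V]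
    (T : SimpleGraph V) (v : V) : Prop :=
  ∃ A : Subgroup G, (∀ a ∈ A, a • v = v) ∧ (∀ g : G, g • v = v → ∀ a ∈ A, g * a * g⁻¹ ∈ A) ∧
    (∀ u : V, T.Adj v u → ∀ x : G, x • v = v → x • u = u → x ∈ A) ∧
    (∀ u : V, T.Adj v u → ∀ x : G, x • u = u → x ∈ ⁅A, A⁆ → x = 1) ∧
    ∃ (P : Type) (_ : Group P) (π : ↥(MulAction.stabilizer G v) →* P), C P ∧
      ∀ g : ↥(MulAction.stabilizer G v), π g = 1 ↔ (g : G) ∈ A

/-- **edge groups in normal subgroups of the vertex groups** -/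
theorem nrm (hC : ClosedE C) (hM : ∀ (G : Type) [Group G], derivedSeries G 2 = ⊥ → C G)
    {G V : Type} [Group G] [MulAction G V] {T : SimpleGraph V}
    (hT : T.IsTree) (hact : ∀ (g : G) (u v : V), T.Adj u v → T.Adj (g • u) (g • v))
    (hV : ∀ v : V, C ↥(MulAction.stabilizer G v)) (hN : ∀ v : V, Nrm C G T v) : C G := by
  obtain ⟨A, hA, hΨ⟩ := exists_cov (G := G) (V := V) (T := T) hact
    (fun (v : V) (A : Subgroup G) => (∀ u : V, T.Adj v u → ∀ x : G, x • u = u → x ∈ ⁅A, A⁆ → x = 1) ∧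
      ∃ (P : Type) (_ : Group P) (π : ↥(MulAction.stabilizer G v) →* P), C P ∧
        ∀ g : ↥(MulAction.stabilizer G v), π g = 1 ↔ (g : G) ∈ A) (by
    rintro g v A ⟨h1, P, _, π, hP, hπ⟩
    refine ⟨?_, ?_⟩
    · intro u hu x hxu hx
      have h2 : (⁅A.comap (MulAut.conj g⁻¹).toMonoidHom, A.comap (MulAut.conj g⁻¹).toMonoidHom⁆).map
          (MulAut.conj g⁻¹).toMonoidHom ≤ ⁅A, A⁆ := by
        rw [Subgroup.map_commutator]
        exact Subgroup.commutator_mono (Subgroup.map_comap_le _ _) (Subgroup.map_comap_le _ _)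
      have h3 : g⁻¹ * x * g⁻¹⁻¹ ∈ ⁅A, A⁆ := h2 ⟨x, hx, rfl⟩
      have h4 : T.Adj v (g⁻¹ • u) := by
        have := hact g⁻¹ _ _ hu
        rwa [inv_smul_smul] at this
      have h5 := h1 _ h4 _ (by rw [inv_inv, mul_smul, mul_smul, smul_inv_smul, hxu]) h3
      have h6 : x = g * (g⁻¹ * x * g⁻¹⁻¹) * g⁻¹ := by group
      rw [h6, h5, mul_one, mul_inv_cancel]
    · let c : ↥(MulAction.stabilizer G (g • v)) →* ↥(MulAction.stabilizer G v) :=
        ((MulAut.conj g⁻¹).toMonoidHom.comp (MulAction.stabilizer G (g • v)).subtype).codRestrict _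
          (by
            rintro ⟨y, hy⟩
            have hy' : y • g • v = g • v := hy
            show (g⁻¹ * y * g⁻¹⁻¹) • v = v
            rw [inv_inv, mul_smul, mul_smul, hy', inv_smul_smul])
      refine ⟨P, _, π.comp c, hP, fun y => ?_⟩
      exact hπ (c y)) (by
    intro v
    obtain ⟨A, h1, h2, h3, h4, h5⟩ := hN v
    exact ⟨A, h1, h2, h3, h4, h5⟩)
  exact cov_hom hC hM hT hact hA (fun v => (hΨ v).2) hV fun v u hvu x _ hxu hx =>
    (hΨ v).1 u hvu x hxu hx

end Pool.Agent.N509.OM
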