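import Pool.Agent.N509.OM.Acn

/-!
# Balanced edge groups
-/

set_option autoImplicit false

namespace Pool.Agent.N509.OM

open SimpleGraph
open Pool.Agent.Y110.FJ
open Pool.Agent.N509.TK
open Pool.Agent.N509.TX
open Pool.Agent.R941.FJ (C_equiv C_le C_cyc mem_sup_normal)

variable {C : ∀ (G : Type) [Group G], Prop}

variable {G V : Type} [Group G] [MulAction G V] {T : SimpleGraph V}

/-- **an almost central cyclic subgroup which is commensurable with the edge groups** -/
theorem bal0N (hC : ClosedE C) (hM : ∀ (G : Type) [Group G], derivedSeries G 2 = ⊥ → C G)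
    (hA : AcylN C) (hT : T.IsTree)
    (hact : ∀ (g : G) (u v : V), T.Adj u v → T.Adj (g • u) (g • v)) (z : G)
    (hcomm : ∀ g : G, ∃ n : ℤ, n ≠ 0 ∧ g * z ^ n = z ^ n * g)
    (hE : ∀ u v : V, T.Adj u v → ∃ n : ℤ, n ≠ 0 ∧ z ^ n • u = u ∧ z ^ n • v = v ∧
      (Subgroup.zpowers (z ^ n)).relIndex (MulAction.stabilizer G u ⊓ MulAction.stabilizer G v) ≠ 0)
    (hV : ∀ v : V, C ↥(MulAction.stabilizer G v)) : C G := by
  classical
  refine of_fg_mem hC z fun H hfg hzH => ?_
  obtain ⟨o⟩ := hT.connected.nonempty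
  obtain ⟨W, _, T', ι, Φ, hW, ⟨w0, hw0⟩, hΦ, hΦ'⟩ := fg_subtree (G := H) hT
    (fun g u v h => hact g u v h) hfg o
  by_cases hne : ∃ x y, T'.Adj x y
  swap
  · push Not at hne
    exact kfin hC hM (hA.toF hC) hW.tree hW.act (1 : H →* Multiplicative ℤ) hC.base.int (fun w => by
      rw [hW.stab w]
      exact C_stab hC H (ι w) (hV _)) fun u v huv => absurd huv (hne u v)
  obtain ⟨x0, y0, hxy0⟩ := hne
  -- the exponent
  obtain ⟨S, hS⟩ := (Group.fg_def.1 hfg)
  obtain ⟨N1, hN1, hN1'⟩ := exists_common S (fun g n => (g : G) * z ^ n = z ^ n * g)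
    (fun g _ => hcomm g) (by
      intro g n k _ h
      have h1 : Commute (g : G) (z ^ n) := h
      show (g : G) * z ^ (n * k) = z ^ (n * k) * g
      rw [zpow_mul]
      exact h1.zpow_right k)
  obtain ⟨N2, hN2, hN2'⟩ := exists_common Φ (fun e n => z ^ n • e.1 = e.1 ∧ z ^ n • e.2 = e.2 ∧
      (Subgroup.zpowers (z ^ n)).relIndex
        (MulAction.stabilizer G e.1 ⊓ MulAction.stabilizer G e.2) ≠ 0)
    (fun e he => hE e.1 e.2 (hΦ e he)) (by
      rintro e n k hk ⟨h1, h2, h3⟩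
      refine ⟨?_, ?_, ?_⟩
      · rw [zpow_mul]
        exact zpow_fix h1 k
      · rw [zpow_mul]
        exact zpow_fix h2 k
      · rw [zpow_mul]
        exact relIndex_zpow _ k hk _ h3)
  obtain ⟨N, hN⟩ : ∃ N : ℤ, N = N1 * N2 := ⟨_, rfl⟩
  have hN0 : N ≠ 0 := hN ▸ mul_ne_zero hN1 hN2
  obtain ⟨c, hc⟩ : ∃ c : H, c = ⟨z, hzH⟩ ^ N := ⟨_, rfl⟩
  have hcz : (c : G) = z ^ N := by
    rw [hc]
    rfl
  have hcS : ∀ g ∈ S, g * c = c * g := by
    intro g hg
    have h1 : Commute (g : G) (z ^ N1) := hN1' g hg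
    apply Subtype.ext
    show (g : G) * (c : G) = (c : G) * g
    rw [hcz, hN, zpow_mul]
    exact h1.zpow_right N2
  have hcc : ∀ g : H, g * c = c * g := by
    intro g
    have h1 : g ∈ Subgroup.centralizer {c} := by
      have h2 : (⊤ : Subgroup H) ≤ Subgroup.centralizer {c} := by
        rw [← hS, Subgroup.closure_le]
        intro s hs
        exact Subgroup.mem_centralizer_singleton_iff.2 (hcS s hs)
      exact h2 (Subgroup.mem_top g)
    exact Subgroup.mem_centralizer_singleton_iff.1 h1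
  have hcΦ : ∀ e ∈ Φ, (c : G) • e.1 = e.1 ∧ (c : G) • e.2 = e.2 ∧
      (Subgroup.zpowers (c : G)).relIndex
        (MulAction.stabilizer G e.1 ⊓ MulAction.stabilizer G e.2) ≠ 0 := by
    intro e he
    obtain ⟨h1, h2, h3⟩ := hN2' e he
    rw [hcz, hN, mul_comm, zpow_mul]
    exact ⟨zpow_fix h1 _, zpow_fix h2 _, relIndex_zpow _ _ hN1 _ h3⟩
  have hcE : ∀ x y : W, T'.Adj x y → (c : G) • ι x = ι x ∧ (c : G) • ι y = ι y := by
    intro x y hxy
    obtain ⟨h, hh⟩ := hΦ' x y hxy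
    have key : ∀ v : V, (c : G) • h • v = h • v → (c : G) • v = v := by
      intro v hv
      have h1 : (c : G) • (h : G) • v = (h : G) • v := hv
      rw [← mul_smul] at h1
      have h2 : (c : G) * (h : G) = h * c := (congrArg Subtype.val (hcc h)).symm
      rw [h2, mul_smul] at h1
      exact smul_left_cancel _ h1
    rcases hh with hh | hh
    · exact ⟨key _ (hcΦ _ hh).1, key _ (hcΦ _ hh).2.1⟩
    · exact ⟨key _ (hcΦ _ hh).2.1, key _ (hcΦ _ hh).1⟩
  have hcW : ∀ w : W, c • w = w := by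
    intro w
    obtain ⟨w', hw'⟩ := exists_nbr hW.tree hxy0 w
    exact hW.fix.2 (hcE w w' hw').1
  obtain ⟨Z, hZ⟩ : ∃ Z : Subgroup H, Z = Subgroup.zpowers c := ⟨_, rfl⟩
  have hZc : ∀ a ∈ Z, ∀ g : H, g * a = a * g := by
    rw [hZ]
    rintro _ ⟨i, rfl⟩ g
    exact (show Commute g c from hcc g).zpow_right i
  have hZn : Z.Normal := ⟨fun a ha g => by
    rw [hZc a ha g, mul_inv_cancel_right]
    exact ha⟩
  have hZW : ∀ a ∈ Z, ∀ w : W, a • w = w := by
    rw [hZ]
    rintro _ ⟨i, rfl⟩ w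
    exact zpow_fix (hcW w) i
  refine finedgeN (G := H) (V := W) (T := T') hC hA hfg hW.tree hW.act Z hZW
    (Φ.sup fun e => (Subgroup.zpowers (c : G)).relIndex
      (MulAction.stabilizer G e.1 ⊓ MulAction.stabilizer G e.2)) ?_ ?_ ?_
  · intro x y hxy F hF hFN
    obtain ⟨h, hh⟩ := hΦ' x y hxy
    have main : ∀ e ∈ Φ, (∀ g : H, g • x = x → g • y = y →
        (h : G) * g * (h : G)⁻¹ ∈ MulAction.stabilizer G e.1 ⊓ MulAction.stabilizer G e.2) →
        F.card ≤ (Subgroup.zpowers (c : G)).relIndex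
          (MulAction.stabilizer G e.1 ⊓ MulAction.stabilizer G e.2) := by
      intro e he hconj
      obtain ⟨E, hEe⟩ : ∃ E : Subgroup G, E = MulAction.stabilizer G e.1 ⊓
        MulAction.stabilizer G e.2 := ⟨_, rfl⟩
      have hrel := (hcΦ e he).2.2
      rw [← hEe] at hconj hrel ⊢
      have hfi : ((Subgroup.zpowers (c : G)).subgroupOf E).FiniteIndex := ⟨hrel⟩
      have hfin : Finite (E ⧸ (Subgroup.zpowers (c : G)).subgroupOf E) :=
        Subgroup.finiteIndex_iff_finite_quotient.1 hfi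
      have hmem : ∀ q ∈ F, (h : G) * q * (h : G)⁻¹ ∈ E := by
        intro q hq
        obtain ⟨h1, h2⟩ := hF q hq
        exact hconj _ h1 h2
      let φ : H → E ⧸ (Subgroup.zpowers (c : G)).subgroupOf E := fun q =>
        if hq : (h : G) * q * (h : G)⁻¹ ∈ E then QuotientGroup.mk ⟨_, hq⟩ else QuotientGroup.mk 1
      have hinj : Set.InjOn φ F := by
        intro q hq q' hq' hφ
        have h1 := hmem q hq
        have h2 := hmem q' hq'
        simp only [φ, dif_pos h1, dif_pos h2] at hφ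
        have h3 := QuotientGroup.eq.1 hφ
        rw [Subgroup.mem_subgroupOf] at h3
        obtain ⟨i, hi⟩ := h3
        have h4 : (c : G) ^ i = (h : G) * ((q : G)⁻¹ * q') * (h : G)⁻¹ := by
          refine hi.trans ?_
          show ((h : G) * q * (h : G)⁻¹)⁻¹ * ((h : G) * q' * (h : G)⁻¹) = _
          group
        have h5 : q⁻¹ * q' = c ^ i := by
          apply Subtype.ext
          show (q : G)⁻¹ * q' = (c : G) ^ i
          have h6 : (h : G) * (c : G) ^ i = (c : G) ^ i * h :=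
            (show Commute (h : G) (c : G) from congrArg Subtype.val (hcc h)).zpow_right i
          have h7 : (q : G)⁻¹ * q' = (h : G)⁻¹ * (c : G) ^ i * h := by
            rw [h4]
            group
          rw [h7, mul_assoc, ← h6, inv_mul_cancel_left]
        refine hFN q hq q' hq' ?_
        rw [h5, hZ]
        exact ⟨i, rfl⟩
      have := Fintype.ofFinite (E ⧸ (Subgroup.zpowers (c : G)).subgroupOf E)
      have h1 := Finset.card_le_card_of_injOn (s := F)
        (t := (Finset.univ : Finset (E ⧸ (Subgroup.zpowers (c : G)).subgroupOf E))) φ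
        (fun _ _ => Finset.mem_coe.2 (Finset.mem_univ _)) hinj
      rw [Finset.card_univ, ← Nat.card_eq_fintype_card] at h1
      exact h1
    have hcj : ∀ (g : H) (w : W), g • w = w → ((h : G) * g * (h : G)⁻¹) • h • ι w = h • ι w := by
      intro g w hg
      have h1 : (g : G) • ι w = ι w := by
        have := hW.eqv g w
        rw [hg] at this
        exact this.symm
      show ((h : G) * g * (h : G)⁻¹) • (h : G) • ι w = (h : G) • ι w
      rw [mul_smul, inv_smul_smul, mul_smul, h1]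
    rcases hh with hh | hh
    · exact (main _ hh fun g hx hy => ⟨hcj g x hx, hcj g y hy⟩).trans (Finset.le_sup
        (f := fun e : V × V => (Subgroup.zpowers (c : G)).relIndex
          (MulAction.stabilizer G e.1 ⊓ MulAction.stabilizer G e.2)) hh)
    · exact (main _ hh fun g hx hy => ⟨hcj g y hy, hcj g x hx⟩).trans (Finset.le_sup
        (f := fun e : V × V => (Subgroup.zpowers (c : G)).relIndex
          (MulAction.stabilizer G e.1 ⊓ MulAction.stabilizer G e.2)) hh)
  · intro w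
    rw [hW.stab w]
    exact C_stab hC H (ι w) (hV _)
  · intro g
    refine C_comm hM ?_
    rintro ⟨x, hx⟩ ⟨y, hy⟩
    obtain ⟨a, ha, _, ⟨i, rfl⟩, rfl⟩ := mem_sup_normal.1 hx
    obtain ⟨b, hb, _, ⟨j, rfl⟩, rfl⟩ := mem_sup_normal.1 hy
    apply Subtype.ext
    show a * g ^ i * (b * g ^ j) = b * g ^ j * (a * g ^ i)
    have h1 : Commute a b := (hZc b hb a)
    have h2 : Commute a (g ^ j) := (hZc a ha (g ^ j)).symm
    have h3 : Commute (g ^ i) b := hZc b hb (g ^ i)
    have h4 : Commute (g ^ i) (g ^ j) := (Commute.refl g).zpow_zpow i j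
    exact ((h1.mul_right h2).mul_left (h3.mul_right h4)).eq

/-- **a commensurated cyclic subgroup which is balanced and commensurable with the edge groups** -/
theorem balN (hC : ClosedE C) (hM : ∀ (G : Type) [Group G], derivedSeries G 2 = ⊥ → C G)
    (hA : AcylN C) (hT : T.IsTree)
    (hact : ∀ (g : G) (u v : V), T.Adj u v → T.Adj (g • u) (g • v)) (z : G)
    (hcomm : ∀ g : G, ∃ m k : ℤ, m ≠ 0 ∧ |m| = |k| ∧ g * z ^ m * g⁻¹ = z ^ k)
    (hE : ∀ u v : V, T.Adj u v → ∃ n : ℤ, n ≠ 0 ∧ z ^ n • u = u ∧ z ^ n • v = v ∧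
      (Subgroup.zpowers (z ^ n)).relIndex (MulAction.stabilizer G u ⊓ MulAction.stabilizer G v) ≠ 0)
    (hV : ∀ v : V, C ↥(MulAction.stabilizer G v)) : C G := by
  have hfi := LL_index (⊤ : Subgroup G) z fun g _ => hcomm g
  refine C_equiv hC.base (Subgroup.topEquiv (G := G)).symm ?_
  refine hC.base.finiteIndex ↥(⊤ : Subgroup G) (LL ⊤ z) hfi ?_
  refine C_equiv hC.base
    ((LL ⊤ z).equivMapOfInjective (⊤ : Subgroup G).subtype (⊤ : Subgroup G).subtype_injective) ?_
  obtain ⟨K1, hK1⟩ : ∃ K1 : Subgroup G, K1 = (LL ⊤ z).map (⊤ : Subgroup G).subtype := ⟨_, rfl⟩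
  rw [← hK1]
  have hz1 : z ∈ K1 := by
    rw [hK1]
    exact ⟨⟨z, Subgroup.mem_top z⟩, ⟨1, one_ne_zero, by
      show z * z ^ (1 : ℤ) = z ^ (1 : ℤ) * z
      rw [zpow_one]⟩, rfl⟩
  refine bal0N (G := K1) (V := V) (T := T) hC hM hA hT (fun g u v h => hact g u v h) ⟨z, hz1⟩
    ?_ ?_ ?_
  · rintro ⟨g, hg⟩
    have hg' := hg
    rw [hK1] at hg'
    obtain ⟨g', ⟨n, hn, h⟩, rfl⟩ := hg'
    exact ⟨n, hn, Subtype.ext h⟩
  · intro x w hxw
    obtain ⟨n, hn, h2, h3, h4⟩ := hE x w hxw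
    refine ⟨n, hn, h2, h3, ?_⟩
    have h5 : Subgroup.zpowers ((⟨z, hz1⟩ : K1) ^ n) =
        (Subgroup.zpowers (z ^ n)).comap K1.subtype := zp_sub _ _
    rw [h5, Subgroup.relIndex_comap]
    refine fun h6 => h4 (Subgroup.relIndex_eq_zero_of_le_right ?_ h6)
    rintro _ ⟨g, ⟨hg1, hg2⟩, rfl⟩
    exact ⟨hg1, hg2⟩
  · intro w
    exact C_stab hC K1 w (hV w)

end Pool.Agent.N509.OM
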