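import Pool.Agent.N509.OM.Unb
import Pool.Agent.N509.TX.VcE

/-!
# Trees with virtually cyclic edge stabilizers, relative version
-/

set_option autoImplicit false

namespace Pool.Agent.N509.OM

open SimpleGraph
open Pool.Agent.Y110.FJ
open Pool.Agent.N509.TK
open Pool.Agent.N509.TX
open Pool.Agent.R941.FJ (C_equiv C_le C_cyc mem_sup_normal)

/-- `x` is balanced in the stabilizer of `v`, or central quotients -/
def Loc (C : ∀ (G : Type) [Group G], Prop) {G V : Type} [Group G] [MulAction G V] (v : V) (x : G)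
    (A : Subgroup G) : Prop :=
  (∀ g : G, g • v = v → ∀ m k : ℤ, m ≠ 0 → g * x ^ m * g⁻¹ = x ^ k → |m| = |k|) ∨
    ∀ S : Subgroup G,
      (∀ g ∈ S, g • v = v ∧ ∃ m k : ℤ, m ≠ 0 ∧ k ≠ 0 ∧ g * x ^ m * g⁻¹ = x ^ k) →
      ∃ (P : Type) (_ : Group P) (f : S →* P), C P ∧ ∀ s : S, f s = 1 ↔ (s : G) ∈ A

/-- the condition on the vertex group of `v`: there is a subgroup `A` of it which contains the stabilizers
of the edges at `v` that are fixed by a nonzero power of `x`, is normalized by the elements of the vertex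
group which conjugate a nonzero power of `x` to a nonzero power of `x`, the commutator subgroup of which
contains no nonzero power of `x`, and which satisfies `Loc` -/
def Nb (C : ∀ (G : Type) [Group G], Prop) {G V : Type} [Group G] [MulAction G V]
    (T : SimpleGraph V) (v : V) (x : G) : Prop :=
  ∃ A : Subgroup G, (∀ a ∈ A, a • v = v) ∧
    (∀ u : V, T.Adj v u → ∀ n : ℤ, n ≠ 0 → x ^ n • v = v → x ^ n • u = u →
      ∀ y : G, y • v = v → y • u = u → y ∈ A) ∧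
    (∀ g : G, g • v = v → ∀ m k : ℤ, m ≠ 0 → k ≠ 0 → g * x ^ m * g⁻¹ = x ^ k →
      ∀ a ∈ A, g * a * g⁻¹ ∈ A) ∧
    (∀ m : ℤ, m ≠ 0 → x ^ m ∉ ⁅A, A⁆) ∧ Loc C v x A

variable {C : ∀ (G : Type) [Group G], Prop}

section sub

variable {G V : Type} [Group G] [MulAction G V] {T : SimpleGraph V} {H : Subgroup G} {W : Type}
  [MulAction H W] {T' : SimpleGraph W} {ι : W → V}

theorem Loc.sub (h : STree H T T' ι) {v : W} {x : H} {A : Subgroup G}
    (hx : Loc C (ι v) (x : G) A) : Loc C v x (A.comap H.subtype) := by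
  rcases hx with hx | hx
  · left
    intro g hg m k hm hgx
    exact hx g (h.fix.1 hg) m k hm (congrArg Subtype.val hgx)
  · right
    intro S hS
    obtain ⟨P, _, f, hP, hf⟩ := hx (S.map H.subtype) (by
      rintro _ ⟨g, hg, rfl⟩
      obtain ⟨h5, m, k, hm, hk, h6⟩ := hS g hg
      exact ⟨h.fix.1 h5, m, k, hm, hk, congrArg Subtype.val h6⟩)
    exact ⟨P, _, f.comp (H.subtype.subgroupMap S), hP, fun s => hf _⟩

theorem Nb.sub (h : STree H T T' ι) {v : W} {x : H} (hx : Nb C T (ι v) (x : G)) : Nb C T' v x := by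
  obtain ⟨A, h1, h2, h3, h4, h5⟩ := hx
  refine ⟨A.comap H.subtype, fun a ha => h.fix.2 (h1 a ha), ?_, ?_, ?_, h5.sub h⟩
  · intro u hu n hn hxv hxu y hyv hyu
    exact h2 (ι u) (h.adj _ _ hu) n hn (h.fix.1 hxv) (h.fix.1 hxu) y (h.fix.1 hyv) (h.fix.1 hyu)
  · intro g hg m k hm hk hgx a ha
    exact h3 g (h.fix.1 hg) m k hm hk (congrArg Subtype.val hgx) a ha
  · intro m hm hxm
    refine h4 m hm ?_
    have h6 : (⁅A.comap H.subtype, A.comap H.subtype⁆).map H.subtype ≤ ⁅A, A⁆ := by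
      rw [Subgroup.map_commutator]
      exact Subgroup.commutator_mono (Subgroup.map_comap_le _ _) (Subgroup.map_comap_le _ _)
    exact h6 ⟨_, hxm, rfl⟩

end sub

theorem LB_conj {G : Type} [Group G] {z g a : G}
    (hg : ∃ m k : ℤ, m ≠ 0 ∧ k ≠ 0 ∧ g * z ^ m * g⁻¹ = z ^ k) (ha : a ∈ LB z) :
    g * a * g⁻¹ ∈ LB z := by
  obtain ⟨m, k, hm, hk, h⟩ := hg
  obtain ⟨i, j, hi, hij, h'⟩ := LB_out ha
  refine LB_of (m := k * i) (k := k * j) (mul_ne_zero hk hi) (by rw [abs_mul, abs_mul, hij]) ?_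
  have e1 : z ^ (k * i) = g * z ^ (m * i) * g⁻¹ := by
    rw [zpow_mul, ← h, conj_zpow, zpow_mul]
  have e2 : z ^ (k * j) = g * z ^ (m * j) * g⁻¹ := by
    rw [zpow_mul, ← h, conj_zpow, zpow_mul]
  have e3 : a * z ^ (m * i) * a⁻¹ = z ^ (m * j) := by
    rw [mul_comm, zpow_mul, ← conj_zpow, h', ← zpow_mul, mul_comm]
  rw [e1, e2, ← e3]
  group

/-- an equivariant family -/
theorem exists_family {G V : Type} [Group G] [MulAction G V] {T : SimpleGraph V}
    (hact : ∀ (g : G) (u v : V), T.Adj u v → T.Adj (g • u) (g • v)) {z : G}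
    (hcom : ∀ g : G, ∃ m k : ℤ, m ≠ 0 ∧ k ≠ 0 ∧ g * z ^ m * g⁻¹ = z ^ k)
    (hed : ∀ u v : V, T.Adj u v → ∃ n : ℤ, n ≠ 0 ∧ z ^ n • u = u ∧ z ^ n • v = v)
    (hNb : ∀ w : V, Nb C T w z) :
    ∃ A : V → Subgroup G, Cov T A ∧ (∀ v, MulAction.stabilizer G v ≤ LB z ∨
      ∃ (P : Type) (_ : Group P) (π : ↥(MulAction.stabilizer G v) →* P), C P ∧
        ∀ g : ↥(MulAction.stabilizer G v), π g = 1 ↔ (g : G) ∈ A v) ∧
      ∀ (v : V) (m : ℤ), m ≠ 0 → z ^ m ∉ ⁅A v, A v⁆ := by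
  choose A0 h1 h2 h3 h4 h5 using hNb
  let s : Setoid V := MulAction.orbitRel G V
  obtain ⟨rep, hrep⟩ : ∃ rep : V → V, ∀ w, rep w = Quotient.out (Quotient.mk s w) :=
    ⟨_, fun _ => rfl⟩
  have hex : ∀ w : V, ∃ g : G, g • rep w = w := by
    intro w
    have h6 : s (Quotient.out (Quotient.mk s w)) w := Quotient.mk_out w
    obtain ⟨g, hg⟩ := s.symm h6
    exact ⟨g, by rw [hrep]; exact hg⟩
  have hrg : ∀ (g : G) (w : V), rep (g • w) = rep w := by
    intro g w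
    rw [hrep, hrep, show Quotient.mk s (g • w) = Quotient.mk s w from Quotient.sound ⟨g, rfl⟩]
  choose h hh using hex
  have hinv : ∀ w, (h w)⁻¹ • w = rep w := fun w => inv_smul_eq_iff.2 (hh w).symm
  obtain ⟨A, hA⟩ : ∃ A : V → Subgroup G, ∀ w x, x ∈ A w ↔ (h w)⁻¹ * x * h w ∈ A0 (rep w) := by
    refine ⟨fun w => (A0 (rep w)).comap (MulAut.conj (h w)⁻¹).toMonoidHom, fun w x => ?_⟩
    show (h w)⁻¹ * x * (h w)⁻¹⁻¹ ∈ A0 (rep w) ↔ _
    rw [inv_inv]
  refine ⟨A, ⟨?_, ?_, ?_⟩, ?_, ?_⟩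
  · intro w r hr
    have h6 := h1 _ _ ((hA w r).1 hr)
    rw [mul_smul, mul_smul, hh, inv_smul_eq_iff, hh] at h6
    exact h6
  · intro g w r hr
    rw [hA] at hr ⊢
    rw [hrg]
    obtain ⟨t, ht⟩ : ∃ t : G, t = (h (g • w))⁻¹ * g * h w := ⟨_, rfl⟩
    have ht1 : t • rep w = rep w := by
      rw [ht, mul_smul, mul_smul, hh, hinv, hrg]
    obtain ⟨m, k, hm, hk, hmk⟩ := hcom t
    have h6 := h3 (rep w) t ht1 m k hm hk hmk _ hr
    have h7 : t * ((h w)⁻¹ * r * h w) * t⁻¹ = (h (g • w))⁻¹ * (g * r * g⁻¹) * h (g • w) := by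
      rw [ht]
      group
    rwa [h7] at h6
  · intro v u hvu x hxv hxu
    rw [hA]
    have h6 : T.Adj (rep v) ((h v)⁻¹ • u) := by
      have := hact (h v)⁻¹ _ _ hvu
      rwa [hinv] at this
    obtain ⟨n, hn, h7, h8⟩ := hed _ _ h6
    refine h2 (rep v) _ h6 n hn h7 h8 _ ?_ ?_
    · rw [mul_smul, mul_smul, hh, hxv, hinv]
    · rw [mul_smul, mul_smul, smul_inv_smul, hxu]
  · intro v
    rcases h5 (rep v) with h6 | h6
    · left
      intro y hy
      have hy' : y • v = v := hy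
      have h7 : ((h v)⁻¹ * y * h v) • rep v = rep v := by
        rw [mul_smul, mul_smul, hh, hy', hinv]
      obtain ⟨m, k, hm, hk, hmk⟩ := hcom ((h v)⁻¹ * y * h v)
      have h8 := LB_of hm (h6 _ h7 m k hm hmk) hmk
      have h9 := LB_conj (hcom (h v)) h8
      have h10 : h v * ((h v)⁻¹ * y * h v) * (h v)⁻¹ = y := by group
      rwa [h10] at h9
    · right
      obtain ⟨P, _, f, hP, hf⟩ := h6 (MulAction.stabilizer G (rep v)) fun g hg => ⟨hg, hcom g⟩
      let c : ↥(MulAction.stabilizer G v) →* ↥(MulAction.stabilizer G (rep v)) :=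
        ((MulAut.conj (h v)⁻¹).toMonoidHom.comp (MulAction.stabilizer G v).subtype).codRestrict _
          (by
            rintro ⟨y, hy⟩
            have hy' : y • v = v := hy
            show ((h v)⁻¹ * y * (h v)⁻¹⁻¹) • rep v = rep v
            rw [inv_inv, mul_smul, mul_smul, hh, hy', hinv])
      refine ⟨P, _, f.comp c, hP, fun g => ?_⟩
      rw [hA]
      refine (hf (c g)).trans ?_
      show (h v)⁻¹ * g * (h v)⁻¹⁻¹ ∈ A0 (rep v) ↔ _
      rw [inv_inv]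
  · intro v m hm hzm
    obtain ⟨a, b, ha, hb, hab⟩ := hcom (h v)⁻¹
    refine h4 (rep v) (b * m) (mul_ne_zero hb hm) ?_
    have h6 : (⁅A v, A v⁆).map (MulAut.conj (h v)⁻¹).toMonoidHom ≤ ⁅A0 (rep v), A0 (rep v)⁆ := by
      rw [Subgroup.map_commutator]
      have h7 : (A v).map (MulAut.conj (h v)⁻¹).toMonoidHom ≤ A0 (rep v) := by
        rintro _ ⟨y, hy, rfl⟩
        have h8 := (hA v y).1 hy
        show (h v)⁻¹ * y * (h v)⁻¹⁻¹ ∈ A0 (rep v)
        rwa [inv_inv]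
      exact Subgroup.commutator_mono h7 h7
    have h7 : (h v)⁻¹ * z ^ m * (h v)⁻¹⁻¹ ∈ ⁅A0 (rep v), A0 (rep v)⁆ := h6 ⟨_, hzm, rfl⟩
    have h8 := Subgroup.zpow_mem _ h7 a
    rwa [conj_zpow, ← zpow_mul, mul_comm, zpow_mul, ← conj_zpow, hab, ← zpow_mul] at h8

/-- groups in which all edge stabilizers are commensurable with `⟨z⟩` -/
theorem cylN (hC : ClosedE C) (hM : ∀ (G : Type) [Group G], derivedSeries G 2 = ⊥ → C G)
    (hA : AcylN C) {K W : Type} [Group K] [MulAction K W] {T : SimpleGraph W} (hT : T.IsTree)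
    (hact : ∀ (g : K) (u v : W), T.Adj u v → T.Adj (g • u) (g • v)) {z : K} (hz : Inf z)
    (hcom : ∀ g : K, ∃ m k : ℤ, m ≠ 0 ∧ k ≠ 0 ∧ g * z ^ m * g⁻¹ = z ^ k)
    (hE : ∀ u v : W, T.Adj u v → ∃ n : ℤ, n ≠ 0 ∧ z ^ n • u = u ∧ z ^ n • v = v ∧
      (Subgroup.zpowers (z ^ n)).relIndex (MulAction.stabilizer K u ⊓ MulAction.stabilizer K v) ≠ 0)
    (hV : ∀ v : W, C ↥(MulAction.stabilizer K v))
    (hEr : ∀ u v : W, T.Adj u v → Er K u v) (hEt : ∀ u v : W, T.Adj u v → ∃ n, Et K n u v)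
    (hx : (∀ (g : K) (m k : ℤ), m ≠ 0 → g * z ^ m * g⁻¹ = z ^ k → |m| = |k|) ∨
      ∀ v u : W, T.Adj v u → Nb C T v z) : C K := by
  rcases hx with hx | hx
  · refine balN hC hM hA hT hact z ?_ hE hV
    intro g
    obtain ⟨m, k, hm, hk, h⟩ := hcom g
    exact ⟨m, k, hm, hx g m k hm h, h⟩
  refine of_fg_mem hC z fun H hfg hzH => ?_
  obtain ⟨o⟩ := hT.connected.nonempty
  obtain ⟨W', _, T', ι, Φ, hW, ⟨w0, hw0⟩, hΦ, hΦ'⟩ := fg_subtree (G := H) hT
    (fun g u v h => hact g u v h) hfg o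
  have hV' : ∀ w : W', C ↥(MulAction.stabilizer H w) := by
    intro w
    rw [hW.stab w]
    exact C_stab hC H (ι w) (hV _)
  by_cases hne : ∃ x y, T'.Adj x y
  swap
  · push Not at hne
    exact kfin hC hM (hA.toF hC) hW.tree hW.act (1 : H →* Multiplicative ℤ) hC.base.int hV'
      fun u v huv => absurd huv (hne u v)
  obtain ⟨x0, y0, h0⟩ := hne
  have hcomH : ∀ g : H, ∃ m k : ℤ, m ≠ 0 ∧ k ≠ 0 ∧
      g * (⟨z, hzH⟩ : H) ^ m * g⁻¹ = (⟨z, hzH⟩ : H) ^ k := by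
    intro g
    obtain ⟨m, k, hm, hk, h⟩ := hcom g
    exact ⟨m, k, hm, hk, Subtype.ext h⟩
  obtain ⟨A, hcov, hloc, hab⟩ := exists_family (C := C) (G := H) (V := W') (T := T') hW.act
    (z := ⟨z, hzH⟩) hcomH (fun u v huv => by
      obtain ⟨n, hn, h1, h2, _⟩ := hE _ _ (hW.adj _ _ huv)
      exact ⟨n, hn, hW.fix.2 h1, hW.fix.2 h2⟩) (fun w => by
      obtain ⟨w', hw'⟩ := exists_nbr hW.tree h0 w
      exact Nb.sub hW (hx _ _ (hW.adj _ _ hw')))
  refine unb_fg (G := H) (V := W') (T := T') hC hM hA hfg hW.tree hW.act (z := ⟨z, hzH⟩)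
    (Inf.of_map H.subtype hz) ?_ ?_ ?_ hV' hcov hcomH hloc hab
  · intro u v huv
    obtain ⟨n, hn, h1, h2, h3⟩ := hE _ _ (hW.adj _ _ huv)
    refine ⟨n, hn, hW.fix.2 h1, hW.fix.2 h2, ?_⟩
    have h5 : Subgroup.zpowers ((⟨z, hzH⟩ : H) ^ n) =
        (Subgroup.zpowers (z ^ n)).comap H.subtype := zp_sub _ _
    rw [h5, Subgroup.relIndex_comap]
    refine fun h6 => h3 (Subgroup.relIndex_eq_zero_of_le_right ?_ h6)
    rintro _ ⟨g, ⟨hg1, hg2⟩, rfl⟩
    exact ⟨hW.fix.1 hg1, hW.fix.1 hg2⟩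
  · intro u v huv
    exact (hEr _ _ (hW.adj _ _ huv)).sub hW
  · intro u v huv
    obtain ⟨n, hn⟩ := hEt _ _ (hW.adj _ _ huv)
    exact ⟨n, hn.sub'.sub hW⟩

/-- powers of the elements of infinite order have finite index in the edge stabilizers -/
def Fi (G : Type) {V : Type} [Group G] [MulAction G V] (u v : V) : Prop :=
  ∀ x : G, x • u = u → x • v = v → Inf x →
    (Subgroup.zpowers x).relIndex (MulAction.stabilizer G u ⊓ MulAction.stabilizer G v) ≠ 0

theorem Fi.sub {G V W : Type} [Group G] [MulAction G V] {T : SimpleGraph V} {H : Subgroup G}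
    [MulAction H W] {T' : SimpleGraph W} {ι : W → V} (h : STree H T T' ι) {u v : W}
    (hF : Fi G (ι u) (ι v)) : Fi H u v := by
  intro x hxu hxv hx
  have h5 : Subgroup.zpowers x = (Subgroup.zpowers (x : G)).comap H.subtype := by
    have := zp_sub (H := H) x 1
    rwa [zpow_one, zpow_one] at this
  rw [h5, Subgroup.relIndex_comap]
  refine fun h6 => hF x (h.fix.1 hxu) (h.fix.1 hxv) (hx.map H.subtype H.subtype_injective)
    (Subgroup.relIndex_eq_zero_of_le_right ?_ h6)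
  rintro _ ⟨g, ⟨hg1, hg2⟩, rfl⟩
  exact ⟨h.fix.1 hg1, h.fix.1 hg2⟩

/-- the alternative for `x` -/
def Alt (C : ∀ (G : Type) [Group G], Prop) {G V : Type} [Group G] [MulAction G V]
    (T : SimpleGraph V) (x : G) : Prop :=
  (∀ (g : G) (m k : ℤ), m ≠ 0 → g * x ^ m * g⁻¹ = x ^ k → |m| = |k|) ∨
    ∀ v u : V, T.Adj v u → ∀ n : ℤ, n ≠ 0 → x ^ n • v = v → x ^ n • u = u → Nb C T v x

theorem Alt.sub {G V W : Type} [Group G] [MulAction G V] {T : SimpleGraph V} {H : Subgroup G}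
    [MulAction H W] {T' : SimpleGraph W} {ι : W → V} (h : STree H T T' ι) {x : H}
    (hx : Alt C T (x : G)) : Alt C T' x := by
  rcases hx with hx | hx
  · left
    intro g m k hm hgx
    exact hx g m k hm (congrArg Subtype.val hgx)
  · right
    intro v u hvu n hn hv hu
    exact Nb.sub h (hx _ _ (h.adj _ _ hvu) n hn (h.fix.1 hv) (h.fix.1 hu))

/-- the case of finitely generated groups -/
theorem alt_fg (hC : ClosedE C) (hM : ∀ (G : Type) [Group G], derivedSeries G 2 = ⊥ → C G)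
    (hA : AcylN C) {G V : Type} [Group G] [MulAction G V] {T : SimpleGraph V} (hfg : Group.FG G)
    (hT : T.IsTree) (hact : ∀ (g : G) (u v : V), T.Adj u v → T.Adj (g • u) (g • v))
    (hV : ∀ v : V, C ↥(MulAction.stabilizer G v))
    (hEr : ∀ u v : V, T.Adj u v → Er G u v) (n : ℕ) (hEt : ∀ u v : V, T.Adj u v → Et G n u v)
    (hFi : ∀ u v : V, T.Adj u v → Fi G u v)
    (hx : ∀ v u : V, T.Adj v u → ∀ x : G, x • v = v → x • u = u → Inf x → Alt C T x) :
    C G := by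
  refine cylI_fg hC (hA.toF hC) hfg hT hact hEr n hEt hV ?_
  intro v0 a0 h0 z hz hzv hza K hK hzK
  obtain ⟨hd1, hd2⟩ := cyl_data hEr hact h0 hz hzv hza
  obtain ⟨W, _, T', ι, hW, hcyl⟩ := cyl_subtree hT hact (rI_LR hEr) (cy (rI G) h0) K hK
  have hzi : Inf (⟨z, hzK⟩ : K) := Inf.of_map K.subtype hz
  have hedge : ∀ u v : W, T'.Adj u v → ∃ n : ℤ, n ≠ 0 ∧ (⟨z, hzK⟩ : K) ^ n • u = u ∧
      (⟨z, hzK⟩ : K) ^ n • v = v := by
    intro u v huv
    have h3 := hW.adj _ _ huv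
    obtain ⟨k, hk, h4, h5⟩ := hd2 _ _ h3 (hcyl u v huv h3)
    exact ⟨k, hk, hW.fix.2 h4, hW.fix.2 h5⟩
  refine cylN (K := K) (W := W) (T := T') hC hM hA hW.tree hW.act hzi ?_ ?_ ?_ ?_ ?_ ?_
  · intro g
    obtain ⟨m, k, hm, hk, h⟩ := hd1 g (hK g g.2)
    exact ⟨m, k, hm, hk, Subtype.ext h⟩
  · intro u v huv
    obtain ⟨k, hk, h4, h5⟩ := hedge u v huv
    exact ⟨k, hk, h4, h5, (hFi _ _ (hW.adj _ _ huv)).sub hW _ h4 h5 (hzi.zpow hk)⟩
  · intro w
    rw [hW.stab w]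
    exact C_stab hC K (ι w) (hV _)
  · intro u v huv
    exact (hEr _ _ (hW.adj _ _ huv)).sub hW
  · intro u v huv
    exact ⟨n, (hEt _ _ (hW.adj _ _ huv)).sub'.sub hW⟩
  · rcases (hx v0 a0 h0 z hzv hza hz).sub hW (x := ⟨z, hzK⟩) with h1 | h1
    · exact Or.inl h1
    · right
      intro v u hvu
      obtain ⟨k, hk, h4, h5⟩ := hedge v u hvu
      exact h1 v u hvu k hk h4 h5

/-- **trees with virtually cyclic edge stabilizers** -/
theorem alt (hC : ClosedE C) (hM : ∀ (G : Type) [Group G], derivedSeries G 2 = ⊥ → C G)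
    (hA : AcylN C) {G V : Type} [Group G] [MulAction G V] {T : SimpleGraph V}
    (hT : T.IsTree) (hact : ∀ (g : G) (u v : V), T.Adj u v → T.Adj (g • u) (g • v))
    (hV : ∀ v : V, C ↥(MulAction.stabilizer G v))
    (hEr : ∀ u v : V, T.Adj u v → Er G u v) (hEt : ∀ u v : V, T.Adj u v → ∃ n : ℕ, Et G n u v)
    (hFi : ∀ u v : V, T.Adj u v → Fi G u v)
    (hx : ∀ v u : V, T.Adj v u → ∀ x : G, x • v = v → x • u = u → Inf x → Alt C T x) :
    C G := by
  refine of_fg hC fun H hfg => ?_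
  obtain ⟨o⟩ := hT.connected.nonempty
  have hactH : ∀ (g : H) (u v : V), T.Adj u v → T.Adj (g • u) (g • v) := fun g u v h => hact g u v h
  obtain ⟨W, _, T', ι, Φ, hW, _, hΦ, hΦ'⟩ := fg_subtree (G := H) hT hactH hfg o
  obtain ⟨n, hn⟩ := uniform (G := H) (T := T) (T' := T') (ι := ι) (Φ := Φ)
    (fun u v n => Et H n u v) hΦ hΦ' (fun u v n n' h h' => h'.mono h) (fun u v n h => h.symm)
    (fun h u v n h' => h'.inv h) (fun u v huv => by
      obtain ⟨n, hn⟩ := hEt u v huv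
      exact ⟨n, hn.sub'⟩)
  refine alt_fg (G := H) (V := W) (T := T') hC hM hA hfg hW.tree hW.act ?_ ?_ n ?_ ?_ ?_
  · intro w
    rw [hW.stab w]
    exact C_stab hC H (ι w) (hV _)
  · intro u v huv
    exact (hEr _ _ (hW.adj _ _ huv)).sub hW
  · intro u v huv
    exact (hn u v huv).sub hW
  · intro u v huv
    exact (hFi _ _ (hW.adj _ _ huv)).sub hW
  · intro v u hvu x hxv hxu hxi
    exact (hx _ _ (hW.adj _ _ hvu) x (hW.fix.1 hxv) (hW.fix.1 hxu)
      (hxi.map H.subtype H.subtype_injective)).sub hW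

/-- **trees with virtually cyclic edge stabilizers** -/
theorem alt_vc (hC : ClosedE C) (hM : ∀ (G : Type) [Group G], derivedSeries G 2 = ⊥ → C G)
    (hA : AcylN C) {G V : Type} [Group G] [MulAction G V] {T : SimpleGraph V}
    (hT : T.IsTree) (hact : ∀ (g : G) (u v : V), T.Adj u v → T.Adj (g • u) (g • v))
    (hV : ∀ v : V, C ↥(MulAction.stabilizer G v))
    (hE : ∀ u v : V, T.Adj u v → VC ↥(MulAction.stabilizer G u ⊓ MulAction.stabilizer G v))
    (hx : ∀ v u : V, T.Adj v u → ∀ x : G, x • v = v → x • u = u → Inf x → Alt C T x) :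
    C G := by
  refine alt hC hM hA hT hact hV (fun u v huv => (vc_edge (hE u v huv)).1)
    (fun u v huv => (vc_edge (hE u v huv)).2) ?_ hx
  intro u v huv x hxu hxv hxi
  have h1 : Inf (⟨x, hxu, hxv⟩ : ↥(MulAction.stabilizer G u ⊓ MulAction.stabilizer G v)) :=
    Inf.of_map (Subgroup.subtype _) hxi
  have h2 := (hE u v huv).index h1
  have h3 : Subgroup.zpowers (⟨x, hxu, hxv⟩ : ↥(MulAction.stabilizer G u ⊓
      MulAction.stabilizer G v)) = (Subgroup.zpowers x).subgroupOf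
      (MulAction.stabilizer G u ⊓ MulAction.stabilizer G v) := by
    ext g
    rw [Subgroup.mem_subgroupOf]
    constructor
    · rintro ⟨i, rfl⟩
      exact ⟨i, rfl⟩
    · rintro ⟨i, hi⟩
      exact ⟨i, Subtype.ext hi⟩
  rw [h3] at h2
  exact h2

end Pool.Agent.N509.OM
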