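import Pool.Agent.N509.OM.Ret
import Pool.Agent.N509.TK.Fin

/-!
# The quotient by a group containing the edge stabilizers
-/

set_option autoImplicit false

namespace Pool.Agent.N509.OM

open SimpleGraph
open Pool.Agent.Y110.FJ
open Pool.Agent.N509.TK
open Pool.Agent.N509.TX
open Pool.Agent.R941.FJ (C_equiv C_le C_cyc mem_sup_normal)

variable {C : ∀ (G : Type) [Group G], Prop}

/-- homomorphisms from the vertex stabilizers to groups in the class with kernels `A v` -/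
def Qf (C : ∀ (G : Type) [Group G], Prop) {G V : Type} [Group G] [MulAction G V]
    (A : V → Subgroup G) : Prop :=
  ∀ v : V, ∃ (P : Type) (_ : Group P) (π : ↥(MulAction.stabilizer G v) →* P), C P ∧
    ∀ g : ↥(MulAction.stabilizer G v), π g = 1 ↔ (g : G) ∈ A v

section quo

variable {G V : Type} {T : SimpleGraph V} [Group G] [MulAction G V] {A : V → Subgroup G}

theorem Cov.normal (hA : Cov T A) : (⨆ v, A v).Normal := by
  refine ⟨fun x hx g => ?_⟩
  have h1 : (⨆ v : V, A v) ≤ (⨆ v : V, A v).comap (MulAut.conj g).toMonoidHom :=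
    iSup_le fun v x hx => le_iSup A (g • v) (hA.eqv g v x hx)
  exact h1 hx

/-- the retractions -/
theorem Qf.ret (hT : T.IsTree) (hact : ∀ (g : G) (u v : V), T.Adj u v → T.Adj (g • u) (g • v))
    (hA : Cov T A) (hQ : Qf C A) (v : V) : ∃ (P : Type) (_ : Group P) (ρ : G →* P), C P ∧
      (∀ x ∈ ⨆ v, A v, ρ x = 1) ∧ ∀ g : G, g • v = v → ρ g = 1 → g ∈ A v := by
  obtain ⟨P, _, π, hP, hπ⟩ := hQ v
  obtain ⟨ρ, h1, h2⟩ := retraction hT hact hA π (fun x hx => by
    rw [pt_eq π (hA.fix v x hx)]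
    exact (hπ _).2 hx)
  refine ⟨P, _, ρ, hP, ?_, ?_⟩
  · have h3 : (⨆ v, A v) ≤ ρ.ker := iSup_le fun w r hr => h1 w r hr
    exact fun x hx => h3 hx
  · intro g hg hρ
    rw [h2 g hg, pt_eq π hg] at hρ
    exact (hπ _).1 hρ

/-- the stabilizers of the group generated by the `A v` -/
theorem Qf.stab (hT : T.IsTree) (hact : ∀ (g : G) (u v : V), T.Adj u v → T.Adj (g • u) (g • v))
    (hA : Cov T A) (hQ : Qf C A) {v : V} {x : G} (hx : x ∈ ⨆ v, A v) (h : x • v = v) : x ∈ A v := by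
  obtain ⟨P, _, ρ, _, h1, h2⟩ := hQ.ret hT hact hA v
  exact h2 x h (h1 x hx)

theorem Qf.Sb_eq (hT : T.IsTree) (hact : ∀ (g : G) (u v : V), T.Adj u v → T.Adj (g • u) (g • v))
    (hA : Cov T A) (hQ : Qf C A) (v : V) : Sb (⨆ v, A v) v = A v := by
  ext x
  constructor
  · rintro ⟨h1, h2⟩
    exact hQ.stab hT hact hA h2 h1
  · intro hx
    exact ⟨hA.fix v x hx, le_iSup A v hx⟩

/-- **the quotient is in the class** -/
theorem Qf.quot (hC : ClosedE C) (hT : T.IsTree)
    (hact : ∀ (g : G) (u v : V), T.Adj u v → T.Adj (g • u) (g • v)) (hA : Cov T A) (hQ : Qf C A)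
    (L : Subgroup G) [hL : L.Normal] (hLA : L = ⨆ v, A v) : C (G ⧸ L) := by
  obtain ⟨S, hS0⟩ := Tv.exists (R := Sb (V := V) L) hT
  have hS := Tq.of_Sb hT hact L hS0
  have hsup : (⨆ v : V, Sb L v) = L := by
    refine le_antisymm (Sb_le L) ?_
    conv_lhs => rw [hLA]
    refine iSup_le fun v => (le_trans ?_ (le_iSup (Sb L) v))
    intro x hx
    exact ⟨hA.fix v x hx, hLA ▸ le_iSup A v hx⟩
  rw [hsup] at hS
  let _ := qa hS
  refine N24.TR.tree_local (T := T.induce S) (V := S) hC (hS.isTree hT) ?_ ?_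
  · intro q s t hst
    obtain ⟨g, rfl⟩ := QuotientGroup.mk_surjective q
    exact sm_adj hact hS g s t hst
  · intro s
    obtain ⟨P, _, ρ, hP, h1, h2⟩ := hQ.ret hT hact hA (s : V)
    have hρL : ∀ x ∈ L, ρ x = 1 := fun x hx => h1 x (hLA ▸ hx)
    refine ⟨P, _, QuotientGroup.lift _ ρ hρL, hP, fun q hq hfq => ?_⟩
    obtain ⟨g, rfl⟩ := QuotientGroup.mk_surjective q
    have h3 : sm hS g s = s := hq
    obtain ⟨h, hh, h4⟩ := sm_spec hS g s
    rw [h3] at h4
    have h5 : h⁻¹ * g ∈ A (s : V) := by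
      refine h2 _ (by rw [mul_smul, h4, inv_smul_smul]) ?_
      have h6 : ρ g = 1 := hfq
      rw [map_mul, map_inv, hρL h hh, h6, inv_one, one_mul]
    refine (QuotientGroup.eq_one_iff g).2 ?_
    have h6 : h⁻¹ * g ∈ L := hLA ▸ le_iSup A (s : V) h5
    have h7 := mul_mem hh h6
    rwa [mul_inv_cancel_left] at h7

/-- **edge groups which embed in the abelianizations of normal subgroups of the vertex groups** -/
theorem cov_hom (hC : ClosedE C) (hM : ∀ (G : Type) [Group G], derivedSeries G 2 = ⊥ → C G)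
    (hT : T.IsTree) (hact : ∀ (g : G) (u v : V), T.Adj u v → T.Adj (g • u) (g • v))
    (hA : Cov T A) (hQ : Qf C A) (hV : ∀ v : V, C ↥(MulAction.stabilizer G v))
    (hE : ∀ v u : V, T.Adj v u → ∀ x : G, x • v = v → x • u = u → x ∈ ⁅A v, A v⁆ → x = 1) : C G := by
  obtain ⟨L, hL⟩ : ∃ L : Subgroup G, L = ⨆ v, A v := ⟨_, rfl⟩
  have hn : L.Normal := hL ▸ hA.normal
  have hSb : ∀ v, Sb L v = A v := by
    rw [hL]
    exact hQ.Sb_eq hT hact hA
  refine hcrit hC hM hT hact L (hQ.quot hC hT hact hA L hL) ?_ ?_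
  · intro v u hvu x hxv hxu hx
    rw [hSb] at hx
    exact hE v u hvu x hxv.1 hxu.1 hx
  · intro v g hg
    refine C_le hC.base (sup_le (fun x hx => hx.1) ?_) (hV v)
    rw [Subgroup.zpowers_le]
    exact hg

/-- the same for edge groups with elements of infinite order which are commensurable -/
theorem cov_inf (hC : ClosedE C) (hM : ∀ (G : Type) [Group G], derivedSeries G 2 = ⊥ → C G)
    (hAc : AcylF C)
    (hT : T.IsTree) (hact : ∀ (g : G) (u v : V), T.Adj u v → T.Adj (g • u) (g • v))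
    (hA : Cov T A) (hQ : Qf C A) (hV : ∀ v : V, C ↥(MulAction.stabilizer G v))
    (hEr : ∀ u v : V, T.Adj u v → Er G u v) (hEt : ∀ u v : V, T.Adj u v → ∃ n, Et G n u v)
    (hE : ∀ v u : V, T.Adj v u → ∀ x : G, x • v = v → x • u = u → Inf x → x ∉ ⁅A v, A v⁆) :
    C G := by
  obtain ⟨L, hL⟩ : ∃ L : Subgroup G, L = ⨆ v, A v := ⟨_, rfl⟩
  have hn : L.Normal := hL ▸ hA.normal
  have hSb : ∀ v, Sb L v = A v := by
    rw [hL]
    exact hQ.Sb_eq hT hact hA
  refine qcrit hC hM hAc hT hact L (hQ.quot hC hT hact hA L hL) hV hEr hEt ?_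
  intro v u hvu x hxv hxu hxi
  rw [hSb]
  exact hE v u hvu x hxv.1 hxu.1 hxi

end quo

end Pool.Agent.N509.OM
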