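import Pool.Agent.N509.TX.Xi

/-!
# Quotients by groups containing the edge stabilizers

Let `A v` be subgroups of the vertex stabilizers which are permuted by conjugation and contain the edge
stabilizers. There is a homomorphism from `G` to the quotient of the stabilizer of `v` by `A v` which
extends the projection and is trivial on the groups `A w`.
-/

set_option autoImplicit false

namespace Pool.Agent.N509.OM

open SimpleGraph
open Pool.Agent.Y110.FJ
open Pool.Agent.N509.TK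
open Pool.Agent.N509.TX
open Pool.Agent.N24.TR (gam gam_mul gam_self gam_eq wp wp_nil wp_cons shift)
open Pool.Agent.R941.FJ (C_equiv C_le C_cyc mem_sup_normal)

section gauge

variable {G V M : Type} {T : SimpleGraph V} [Group G] [MulAction G V] [Group M]

theorem wp_gauge (hact : ∀ (g : G) (u v : V), T.Adj u v → T.Adj (g • u) (g • v)) (e : V → V → M)
    (g : G) (μ : V → M)
    (hμ : ∀ u v, T.Adj u v → e (g • u) (g • v) = μ u * e u v * (μ v)⁻¹) {u v : V}
    (p : T.Walk u v) : wp e (p.map (shift hact g)) = μ u * wp e p * (μ v)⁻¹ := by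
  induction p with
  | nil =>
    rw [wp_nil, mul_one, mul_inv_cancel]
    rfl
  | cons h p ih =>
    rw [Walk.map_cons, wp_cons, wp_cons, ih]
    show e (g • _) (g • _) * _ = _
    rw [hμ _ _ h]
    group

theorem gam_gauge (hT : T.IsTree)
    (hact : ∀ (g : G) (u v : V), T.Adj u v → T.Adj (g • u) (g • v)) (e : V → V → M)
    (he : ∀ u v, T.Adj u v → e u v * e v u = 1) (g : G) (μ : V → M)
    (hμ : ∀ u v, T.Adj u v → e (g • u) (g • v) = μ u * e u v * (μ v)⁻¹) (u v : V) :
    gam hT e (g • u) (g • v) = μ u * gam hT e u v * (μ v)⁻¹ := by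
  obtain ⟨p⟩ := hT.connected.preconnected u v
  rw [gam_eq hT e he p, ← wp_gauge hact e g μ hμ]
  exact gam_eq hT e he (p.map (shift hact g))

end gauge

/-- subgroups of the vertex stabilizers which contain the edge stabilizers -/
structure Cov {G V : Type} [Group G] [MulAction G V] (T : SimpleGraph V) (A : V → Subgroup G) :
    Prop where
  fix : ∀ v, ∀ r ∈ A v, r • v = v
  eqv : ∀ (g : G) (v : V), ∀ r ∈ A v, g * r * g⁻¹ ∈ A (g • v)
  edg : ∀ v u, T.Adj v u → ∀ x : G, x • v = v → x • u = u → x ∈ A v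

section ret

variable {G V P : Type} {T : SimpleGraph V} [Group G] [MulAction G V] [Group P]
  {A : V → Subgroup G}

open Classical in
/-- the extension by `1` -/
noncomputable def pt {v : V} (π : ↥(MulAction.stabilizer G v) →* P) (x : G) : P :=
  if h : x • v = v then π ⟨x, h⟩ else 1

theorem pt_eq {v : V} (π : ↥(MulAction.stabilizer G v) →* P) {x : G} (h : x • v = v) :
    pt π x = π ⟨x, h⟩ := dif_pos h

theorem pt_mul {v : V} (π : ↥(MulAction.stabilizer G v) →* P) {x y : G} (hx : x • v = v)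
    (hy : y • v = v) : pt π (x * y) = pt π x * pt π y := by
  rw [pt_eq π hx, pt_eq π hy, pt_eq π (show (x * y) • v = v by rw [mul_smul, hy, hx]), ← map_mul]
  rfl

theorem pt_one {v : V} (π : ↥(MulAction.stabilizer G v) →* P) : pt π 1 = 1 := by
  rw [pt_eq π (one_smul G v)]
  exact map_one π

/-- labels of the neighbours of `v` -/
theorem exists_label (hact : ∀ (g : G) (u v : V), T.Adj u v → T.Adj (g • u) (g • v))
    (hA : Cov T A) {v : V} (π : ↥(MulAction.stabilizer G v) →* P) (hπ : ∀ x ∈ A v, pt π x = 1) :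
    ∃ c : V → P, ∀ g : G, g • v = v → ∀ a, T.Adj v a → c (g • a) = pt π g * c a := by
  let s : Setoid V := MulAction.orbitRel ↥(MulAction.stabilizer G v) V
  have h1 : ∀ a : V, ∃ g : G, g • v = v ∧ g • (Quotient.out (Quotient.mk s a)) = a := by
    intro a
    have h2 : s (Quotient.out (Quotient.mk s a)) a := Quotient.mk_out a
    obtain ⟨g, hg⟩ := s.symm h2
    exact ⟨g, g.2, hg⟩
  choose γ hγ hγ' using h1
  refine ⟨fun a => pt π (γ a), fun g hg a ha => ?_⟩
  show pt π (γ (g • a)) = pt π g * pt π (γ a)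
  have h2 : Quotient.mk s (g • a) = Quotient.mk s a :=
    Quotient.sound ⟨(⟨g, hg⟩ : MulAction.stabilizer G v), rfl⟩
  have h3 := hγ' (g • a)
  rw [h2] at h3
  have h4 := hγ' a
  obtain ⟨b, hb⟩ : ∃ b, b = Quotient.out (Quotient.mk s a) := ⟨_, rfl⟩
  rw [← hb] at h3 h4
  have h5 : T.Adj v b := by
    have h6 := hact (γ a)⁻¹ _ _ ha
    rw [inv_smul_eq_iff.2 (hγ a).symm, inv_smul_eq_iff.2 h4.symm] at h6
    exact h6
  have hga : (g * γ a) • v = v := by rw [mul_smul, hγ, hg]
  have h6 : (γ (g • a))⁻¹ * (g * γ a) ∈ A v := by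
    refine hA.edg v b h5 _ ?_ ?_
    · rw [mul_smul, hga, inv_smul_eq_iff, hγ]
    · rw [mul_smul, mul_smul, h4, inv_smul_eq_iff, h3]
  have h7 : (γ (g • a))⁻¹ • v = v := inv_smul_eq_iff.2 (hγ _).symm
  rw [← pt_mul π hg (hγ a)]
  have h8 := pt_mul π (hγ (g • a)) (hA.fix v _ h6)
  rw [hπ _ h6, mul_one, mul_inv_cancel_left] at h8
  exact h8.symm

/-- **the retraction** -/
theorem retraction (hT : T.IsTree) (hact : ∀ (g : G) (u v : V), T.Adj u v → T.Adj (g • u) (g • v))
    (hA : Cov T A) {v : V} (π : ↥(MulAction.stabilizer G v) →* P) (hπ : ∀ x ∈ A v, pt π x = 1) :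
    ∃ ρ : G →* P, (∀ w, ∀ r ∈ A w, ρ r = 1) ∧ ∀ g : G, g • v = v → ρ g = pt π g := by
  classical
  obtain ⟨c0, hc0⟩ := exists_label hact hA π hπ
  -- representatives
  have h1 : ∃ h : V → G, h v = 1 ∧ ∀ w, (∃ a : G, a • v = w) → h w • v = w := by
    refine ⟨fun w => if w = v then 1 else if h : ∃ a : G, a • v = w then Classical.choose h else 1,
      if_pos rfl, fun w hw => ?_⟩
    by_cases h2 : w = v
    · simp [h2]
    · simp only [h2, if_false, dif_pos hw]
      exact Classical.choose_spec hw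
  obtain ⟨h, hv1, hh⟩ := h1
  obtain ⟨O, hO⟩ : ∃ O : V → Prop, ∀ w, O w ↔ ∃ a : G, a • v = w := ⟨_, fun _ => Iff.rfl⟩
  have hOg : ∀ (g : G) (w : V), O (g • w) ↔ O w := by
    intro g w
    rw [hO, hO]
    constructor
    · rintro ⟨a, ha⟩
      exact ⟨g⁻¹ * a, by rw [mul_smul, ha, inv_smul_smul]⟩
    · rintro ⟨a, ha⟩
      exact ⟨g * a, by rw [mul_smul, ha]⟩
  have hhO : ∀ w, O w → h w • v = w := fun w hw => hh w ((hO w).1 hw)
  obtain ⟨μ, hμ1, hμ2⟩ : ∃ μ : G → V → P, (∀ g w, O w → μ g w = pt π ((h (g • w))⁻¹ * g * h w)) ∧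
      ∀ g w, ¬ O w → μ g w = 1 :=
    ⟨fun g w => if O w then pt π ((h (g • w))⁻¹ * g * h w) else 1, fun g w hw => if_pos hw,
      fun g w hw => if_neg hw⟩
  obtain ⟨c, hc1, hc2⟩ : ∃ c : V → V → P, (∀ w a, O w → c w a = c0 ((h w)⁻¹ • a)) ∧
      ∀ w a, ¬ O w → c w a = 1 :=
    ⟨fun w a => if O w then c0 ((h w)⁻¹ • a) else 1, fun g w hw => if_pos hw,
      fun g w hw => if_neg hw⟩
  have hst : ∀ (g : G) (w : V), O w → ((h (g • w))⁻¹ * g * h w) • v = v := by
    intro g w hw
    rw [mul_smul, mul_smul, hhO w hw, inv_smul_eq_iff, hhO _ ((hOg g w).2 hw)]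
  have hcg : ∀ (g : G) (w a : V), T.Adj w a → c (g • w) (g • a) = μ g w * c w a := by
    intro g w a hwa
    by_cases hw : O w
    · rw [hc1 _ _ ((hOg g w).2 hw), hc1 _ _ hw, hμ1 _ _ hw]
      have h3 : T.Adj v ((h w)⁻¹ • a) := by
        have h4 := hact (h w)⁻¹ _ _ hwa
        rwa [inv_smul_eq_iff.2 (hhO w hw).symm] at h4
      rw [← hc0 _ (hst g w hw) _ h3]
      congr 1
      rw [← mul_smul, ← mul_smul]
      congr 1
      group
    · rw [hc2 _ _ (fun h3 => hw ((hOg g w).1 h3)), hc2 _ _ hw, hμ2 _ _ hw, mul_one]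
  have hcoc : ∀ (g k : G) (w : V), μ (g * k) w = μ g (k • w) * μ k w := by
    intro g k w
    by_cases hw : O w
    · rw [hμ1 _ _ hw, hμ1 _ _ hw, hμ1 _ _ ((hOg k w).2 hw), ← pt_mul π (hst g _ ((hOg k w).2 hw))
        (hst k w hw)]
      congr 1
      rw [mul_smul]
      group
    · rw [hμ2 _ _ hw, hμ2 _ _ hw, hμ2 _ _ (fun h3 => hw ((hOg k w).1 h3)), mul_one]
  obtain ⟨e, he⟩ : ∃ e : V → V → P, ∀ w a, e w a = c w a * (c a w)⁻¹ := ⟨_, fun _ _ => rfl⟩
  have he1 : ∀ u w, T.Adj u w → e u w * e w u = 1 := by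
    intro u w _
    rw [he, he]
    group
  have heg : ∀ (g : G) (u w : V), T.Adj u w →
      e (g • u) (g • w) = μ g u * e u w * (μ g w)⁻¹ := by
    intro g u w huw
    rw [he, he, hcg g u w huw, hcg g w u huw.symm]
    group
  have hgam := fun (g : G) (u w : V) => gam_gauge hT hact e he1 g (μ g) (heg g) u w
  have hgm := gam_mul hT e he1
  have hgs := gam_self hT e he1
  have hOv : O v := (hO v).2 ⟨1, one_smul _ _⟩
  have hμone : ∀ w, μ 1 w = 1 := by
    intro w
    have h3 := hcoc 1 1 w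
    rw [mul_one, one_smul] at h3
    exact left_eq_mul.1 h3
  refine ⟨⟨⟨fun g => gam hT e v (g • v) * μ g v, ?_⟩, ?_⟩, ?_, ?_⟩
  · show gam hT e v ((1 : G) • v) * μ 1 v = 1
    rw [one_smul, hgs, hμone, mul_one]
  · intro g k
    show gam hT e v ((g * k) • v) * μ (g * k) v =
      gam hT e v (g • v) * μ g v * (gam hT e v (k • v) * μ k v)
    rw [mul_smul, ← hgm v (g • v) (g • k • v), hgam g v (k • v), hcoc]
    group
  · intro w r hr
    show gam hT e v (r • v) * μ r v = 1
    have hrw := hA.fix w r hr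
    have h3 := hgam r w v
    rw [hrw] at h3
    rw [← hgm v w (r • v), h3]
    have h4 : μ r w = 1 := by
      by_cases hw : O w
      · rw [hμ1 _ _ hw, hrw]
        refine hπ _ ?_
        have h5 := hA.eqv (h w)⁻¹ w r hr
        rwa [inv_smul_eq_iff.2 (hhO w hw).symm, inv_inv] at h5
      · exact hμ2 _ _ hw
    rw [h4, one_mul, ← mul_assoc, inv_mul_cancel_right, hgm, hgs]
  · intro g hg
    show gam hT e v (g • v) * μ g v = pt π g
    rw [hg, hgs, hμ1 _ _ hOv, hg, hv1, inv_one, one_mul, one_mul, mul_one]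

end ret

end Pool.Agent.N509.OM
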