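import Pool.Agent.N509.OM.BalN

/-!
# Unbalanced edge groups
-/

set_option autoImplicit false

namespace Pool.Agent.N509.OM

open SimpleGraph
open Pool.Agent.Y110.FJ
open Pool.Agent.N509.TK
open Pool.Agent.N509.TX
open Pool.Agent.R941.FJ (C_equiv C_le C_cyc mem_sup_normal)

variable {C : ∀ (G : Type) [Group G], Prop}

section sta

variable {G V : Type} {T : SimpleGraph V} [Group G] [MulAction G V] {A : V → Subgroup G}

/-- the stabilizers of the group generated by the `A v` -/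
theorem Cov.stab (hT : T.IsTree) (hact : ∀ (g : G) (u v : V), T.Adj u v → T.Adj (g • u) (g • v))
    (hA : Cov T A) {v : V} {x : G} (hx : x ∈ ⨆ v, A v) (h : x • v = v) : x ∈ A v := by
  have h1 : Qf (fun _ _ => True) A := by
    intro v
    have hn : ((A v).subgroupOf (MulAction.stabilizer G v)).Normal := by
      refine ⟨fun a ha g => ?_⟩
      have h2 := hA.eqv (g : G) v a ha
      rw [show (g : G) • v = v from g.2] at h2
      exact h2
    exact ⟨_, _, QuotientGroup.mk' ((A v).subgroupOf (MulAction.stabilizer G v)), trivial,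
      fun g => QuotientGroup.eq_one_iff g⟩
  exact h1.stab hT hact hA hx h

theorem Cov.Sb_eq (hT : T.IsTree) (hact : ∀ (g : G) (u v : V), T.Adj u v → T.Adj (g • u) (g • v))
    (hA : Cov T A) (v : V) : Sb (⨆ v, A v) v = A v := by
  ext x
  constructor
  · rintro ⟨h1, h2⟩
    exact hA.stab hT hact h2 h1
  · intro hx
    exact ⟨hA.fix v x hx, le_iSup A v hx⟩

/-- the restriction of a family to a subgroup and a subtree -/
theorem Cov.sub {H : Subgroup G} {W : Type} [MulAction H W] {T' : SimpleGraph W} {ι : W → V}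
    (h : STree H T T' ι) (hA : Cov T A) : Cov T' fun w => (A (ι w)).comap H.subtype := by
  refine ⟨fun w r hr => h.fix.2 (hA.fix _ _ hr), ?_, ?_⟩
  · intro g w r hr
    show ((g * r * g⁻¹ : H) : G) ∈ A (ι (g • w))
    rw [h.eqv]
    exact hA.eqv (g : G) (ι w) r hr
  · intro v u hvu x hxv hxu
    exact hA.edg _ _ (h.adj _ _ hvu) (x : G) (h.fix.1 hxv) (h.fix.1 hxu)

end sta

/-- the elements which conjugate a nonzero power of `z` to itself or its inverse -/
def LB {G : Type} [Group G] (z : G) : Subgroup G where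
  carrier := {g | ∃ m : ℤ, m ≠ 0 ∧ (g * z ^ m * g⁻¹ = z ^ m ∨ g * z ^ m * g⁻¹ = z ^ (-m))}
  one_mem' := ⟨1, one_ne_zero, Or.inl (by group)⟩
  mul_mem' := by
    rintro a b ⟨m, hm, h⟩ ⟨k, hk, h'⟩
    have e1 : a * z ^ (m * k) * a⁻¹ = z ^ (m * k) ∨ a * z ^ (m * k) * a⁻¹ = z ^ (-(m * k)) := by
      rcases h with h | h
      · left
        rw [zpow_mul, ← conj_zpow, h]
      · right
        rw [zpow_mul, ← conj_zpow, h, ← zpow_mul, neg_mul]
    have e2 : b * z ^ (m * k) * b⁻¹ = z ^ (m * k) ∨ b * z ^ (m * k) * b⁻¹ = z ^ (-(m * k)) := by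
      rcases h' with h | h
      · left
        rw [mul_comm, zpow_mul, ← conj_zpow, h]
      · right
        rw [mul_comm, zpow_mul, ← conj_zpow, h, ← zpow_mul, neg_mul]
    refine ⟨m * k, mul_ne_zero hm hk, ?_⟩
    have e3 : a * b * z ^ (m * k) * (a * b)⁻¹ = a * (b * z ^ (m * k) * b⁻¹) * a⁻¹ := by group
    rw [e3]
    rcases e2 with e2 | e2 <;> rw [e2]
    · exact e1
    · rcases e1 with e1 | e1
      · right
        rw [zpow_neg, ← conj_inv, e1]
      · left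
        rw [zpow_neg, ← conj_inv, e1, zpow_neg, inv_inv]
  inv_mem' := by
    rintro a ⟨m, hm, h⟩
    refine ⟨m, hm, ?_⟩
    rcases h with h | h
    · left
      have : a⁻¹ * (a * z ^ m * a⁻¹) * a⁻¹⁻¹ = z ^ m := by group
      rwa [h] at this
    · right
      have : a⁻¹ * (a * z ^ m * a⁻¹) * a⁻¹⁻¹ = z ^ m := by group
      rw [h] at this
      have h2 : a⁻¹ * z ^ m * a⁻¹⁻¹ = (a⁻¹ * z ^ (-m) * a⁻¹⁻¹)⁻¹ := by
        rw [zpow_neg]
        group
      rw [h2, this, zpow_neg]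

theorem LB_of {G : Type} [Group G] {z g : G} {m k : ℤ} (hm : m ≠ 0) (hmk : |m| = |k|)
    (h : g * z ^ m * g⁻¹ = z ^ k) : g ∈ LB z := by
  refine ⟨m, hm, ?_⟩
  rcases abs_eq_abs.1 hmk with h1 | h1
  · left
    rw [h, h1]
  · right
    rw [h, h1, neg_neg]

theorem LB_out {G : Type} [Group G] {z g : G} (h : g ∈ LB z) :
    ∃ m k : ℤ, m ≠ 0 ∧ |m| = |k| ∧ g * z ^ m * g⁻¹ = z ^ k := by
  obtain ⟨m, hm, h | h⟩ := h
  · exact ⟨m, m, hm, rfl, h⟩
  · exact ⟨m, -m, hm, (abs_neg m).symm, h⟩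

section unb

variable {G V : Type} {T : SimpleGraph V} [Group G] [MulAction G V] {A : V → Subgroup G}

/-- subgroups containing the group generated by the `A v` -/
theorem sub_q (hC : ClosedE C) (hM : ∀ (G : Type) [Group G], derivedSeries G 2 = ⊥ → C G)
    (hAc : AcylF C) (hT : T.IsTree)
    (hact : ∀ (g : G) (u v : V), T.Adj u v → T.Adj (g • u) (g • v)) {z : G} (hz : Inf z)
    (hE : ∀ u v : V, T.Adj u v → ∃ n : ℤ, n ≠ 0 ∧ z ^ n • u = u ∧ z ^ n • v = v ∧
      (Subgroup.zpowers (z ^ n)).relIndex (MulAction.stabilizer G u ⊓ MulAction.stabilizer G v) ≠ 0)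
    (hEr : ∀ u v : V, T.Adj u v → Er G u v) (hEt : ∀ u v : V, T.Adj u v → ∃ n, Et G n u v)
    (hV : ∀ v : V, C ↥(MulAction.stabilizer G v))
    (hab : ∀ v : V, ∀ m : ℤ, m ≠ 0 → z ^ m ∉ ⁅A v, A v⁆) {L : Subgroup G} [L.Normal]
    (hSb : ∀ v, Sb L v = A v) (M : Subgroup G) (hLM : L ≤ M) (hcom : C (M ⧸ L.subgroupOf M)) :
    C M := by
  have hSM : ∀ v : V, (Sb (L.subgroupOf M) v).map M.subtype ≤ A v := by
    rintro v _ ⟨y, ⟨hy1, hy2⟩, rfl⟩
    rw [← hSb]
    exact ⟨hy1, hy2⟩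
  refine qcrit (G := M) (V := V) (T := T) hC hM hAc hT (fun g u v h => hact g u v h)
    (L.subgroupOf M) hcom ?_ ?_ ?_ ?_
  · intro w
    exact C_stab hC M w (hV w)
  · intro u v huv x y hxu hxv hyu hyv hx hy
    obtain ⟨a, b, ha, hb, hab⟩ := hEr u v huv x y hxu hxv hyu hyv
      (hx.map M.subtype M.subtype_injective) (hy.map M.subtype M.subtype_injective)
    exact ⟨a, b, ha, hb, Subtype.ext hab⟩
  · intro u v huv
    obtain ⟨n, hn⟩ := hEt u v huv
    exact ⟨n, hn.sub'⟩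
  · intro v u hvu x hxv hxu hxi hx
    have h1 : (x : G) ∈ ⁅A v, A v⁆ := by
      have h2 : (x : G) ∈ (⁅Sb (L.subgroupOf M) v, Sb (L.subgroupOf M) v⁆).map M.subtype :=
        ⟨x, hx, rfl⟩
      rw [Subgroup.map_commutator] at h2
      exact Subgroup.commutator_mono (hSM v) (hSM v) h2
    obtain ⟨n, hn, h3, h4, _⟩ := hE v u hvu
    obtain ⟨a, b, ha, hb, hab'⟩ := hEr v u hvu (x : G) (z ^ n) hxv.1 hxu.1 h3 h4
      (hxi.map M.subtype M.subtype_injective) (hz.zpow hn)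
    refine hab v (n * b) (mul_ne_zero hn hb) ?_
    rw [zpow_mul, ← hab']
    exact Subgroup.zpow_mem _ h1 a

/-- **the unbalanced case**, finitely generated groups -/
theorem unb_fg (hC : ClosedE C) (hM : ∀ (G : Type) [Group G], derivedSeries G 2 = ⊥ → C G)
    (hAc : AcylN C) (hfg : Group.FG G) (hT : T.IsTree)
    (hact : ∀ (g : G) (u v : V), T.Adj u v → T.Adj (g • u) (g • v)) {z : G} (hz : Inf z)
    (hE : ∀ u v : V, T.Adj u v → ∃ n : ℤ, n ≠ 0 ∧ z ^ n • u = u ∧ z ^ n • v = v ∧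
      (Subgroup.zpowers (z ^ n)).relIndex (MulAction.stabilizer G u ⊓ MulAction.stabilizer G v) ≠ 0)
    (hEr : ∀ u v : V, T.Adj u v → Er G u v) (hEt : ∀ u v : V, T.Adj u v → ∃ n, Et G n u v)
    (hV : ∀ v : V, C ↥(MulAction.stabilizer G v)) (hA : Cov T A)
    (hcom : ∀ g : G, ∃ m k : ℤ, m ≠ 0 ∧ k ≠ 0 ∧ g * z ^ m * g⁻¹ = z ^ k)
    (hloc : ∀ v : V, MulAction.stabilizer G v ≤ LB z ∨
      ∃ (P : Type) (_ : Group P) (π : ↥(MulAction.stabilizer G v) →* P), C P ∧
        ∀ g : ↥(MulAction.stabilizer G v), π g = 1 ↔ (g : G) ∈ A v)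
    (hab : ∀ v : V, ∀ m : ℤ, m ≠ 0 → z ^ m ∉ ⁅A v, A v⁆) : C G := by
  by_cases hne : ∃ x y, T.Adj x y
  swap
  · push Not at hne
    exact kfin hC hM (hAc.toF hC) hT hact (1 : G →* Multiplicative ℤ) hC.base.int hV
      fun u v huv => absurd huv (hne u v)
  obtain ⟨x0, y0, h0⟩ := hne
  obtain ⟨L, hL⟩ : ∃ L : Subgroup G, L = ⨆ v, A v := ⟨_, rfl⟩
  have hn : L.Normal := hL ▸ hA.normal
  have hSb : ∀ v, Sb L v = A v := by
    rw [hL]
    exact hA.Sb_eq hT hact
  have hLLB : L ≤ LB z := by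
    rw [hL]
    refine iSup_le fun v x hx => ?_
    obtain ⟨u, hvu⟩ := exists_nbr hT h0 v
    obtain ⟨n, hn, h1, h2, _⟩ := hE v u hvu
    have h3 := hA.edg v u hvu _ h1 h2
    obtain ⟨m, k, hm, hk, h4⟩ := hcom x
    have h5 : x * (z ^ n) ^ m * x⁻¹ * ((z ^ n) ^ m)⁻¹ ∈ ⁅A v, A v⁆ :=
      Subgroup.commutator_mem_commutator hx (Subgroup.zpow_mem _ h3 m)
    have h6 : x * (z ^ n) ^ m * x⁻¹ = z ^ (n * k) := by
      rw [← zpow_mul, mul_comm, zpow_mul, ← conj_zpow, h4, ← zpow_mul, mul_comm]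
    rw [h6, ← zpow_mul, ← zpow_neg, ← zpow_add] at h5
    have h7 : n * k + -(n * m) = 0 := by
      by_contra h8
      exact hab v _ h8 h5
    have h8 : k = m := by
      have h9 : n * (k - m) = 0 := by linarith
      rcases mul_eq_zero.1 h9 with h10 | h10
      · exact absurd h10 hn
      · linarith
    exact LB_of hm (by rw [h8]) h4
  obtain ⟨S, hS0⟩ := Tv.exists (R := Sb (V := V) L) hT
  have hS := Tq.of_Sb hT hact L hS0
  have hsup : (⨆ v : V, Sb L v) = L := by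
    simp only [hSb]
    exact hL.symm
  rw [hsup] at hS
  let _ := ga hS
  have hzL : ∃ n : ℤ, n ≠ 0 ∧ z ^ n ∈ L := by
    obtain ⟨n, hn, h1, h2, _⟩ := hE x0 y0 h0
    exact ⟨n, hn, hL ▸ le_iSup A x0 (hA.edg x0 y0 h0 _ h1 h2)⟩
  obtain ⟨n0, hn0, hzL⟩ := hzL
  refine finedgeN (G := G) (V := S) (T := T.induce S) hC hAc hfg (hS.isTree hT) ?_ L ?_ 1 ?_ ?_ ?_
  · intro g s t hst
    exact sm_adj hact hS g s t hst
  · intro a ha s
    exact sm_eq hS ha rfl
  · intro s t hst F hF hFL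
    refine Finset.card_le_one.2 fun g hg h hh => hFL g hg h hh ?_
    have key : ∀ g ∈ F, g ∈ L := by
      intro g hg
      obtain ⟨h1, h2⟩ := hF g hg
      have h1 : sm hS g s = s := h1
      have h2 : sm hS g t = t := h2
      obtain ⟨a, ha, h3⟩ := sm_spec hS g s
      obtain ⟨b, hb, h4⟩ := sm_spec hS g t
      rw [h1] at h3
      rw [h2] at h4
      have hst' : T.Adj (s : V) (t : V) := hst
      have h5 : T.Adj (s : V) ((a⁻¹ * b) • (t : V)) := by
        have h6 := hact (a⁻¹ * g) _ _ hst'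
        rw [mul_smul, h3, inv_smul_smul, mul_smul, h4, ← mul_smul] at h6
        exact h6
      obtain ⟨u, hu, h7, r, hr, h8, h9⟩ := hS.max _ s.2 _ h5
      have h10 : (⟨u, hu⟩ : S) = t := quq hS hr (mul_mem (inv_mem ha) hb) h9
      have h11 : u = (t : V) := congrArg Subtype.val h10
      rw [h11] at h9
      have h12 : r⁻¹ * a⁻¹ * g ∈ A (s : V) := by
        refine hA.edg _ _ hst' _ ?_ ?_
        · rw [mul_smul, h3, mul_smul, inv_smul_smul, inv_smul_eq_iff, h8]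
        · rw [mul_smul, h4, mul_smul, inv_smul_eq_iff, h9, mul_smul]
      have h13 : r⁻¹ * a⁻¹ * g ∈ L := hL ▸ le_iSup A (s : V) h12
      have h14 := mul_mem (mul_mem ha hr) h13
      have h15 : a * r * (r⁻¹ * a⁻¹ * g) = g := by group
      rwa [h15] at h14
    exact mul_mem (inv_mem (key g hg)) (key h hh)
  · intro s
    obtain ⟨U, hU⟩ : ∃ U : Subgroup G, U = MulAction.stabilizer G s := ⟨_, rfl⟩
    rw [← hU]
    have hLU : L ≤ U := by
      rw [hU]
      intro a ha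
      exact sm_eq hS ha rfl
    rcases hloc (s : V) with hlc | ⟨P, _, π, hP, hπ⟩
    swap
    · obtain ⟨ρ, hρ1, hρ2⟩ := retraction hT hact hA π (fun x hx => by
        rw [pt_eq π (hA.fix _ x hx)]
        exact (hπ _).2 hx)
      have hρL : ∀ x ∈ L, ρ x = 1 := by
        have h3 : (⨆ v, A v) ≤ ρ.ker := iSup_le fun w r hr => hρ1 w r hr
        exact fun x hx => h3 (hL ▸ hx)
      have hker : ∀ g ∈ U, ρ g = 1 → g ∈ L := by
        intro g hg h
        rw [hU] at hg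
        have h1 : sm hS g s = s := hg
        obtain ⟨a, ha, h3⟩ := sm_spec hS g s
        rw [h1] at h3
        have h4 : (a⁻¹ * g) • (s : V) = s := by rw [mul_smul, h3, inv_smul_smul]
        have h5 : pt π (a⁻¹ * g) = 1 := by
          rw [← hρ2 _ h4, map_mul, map_inv, hρL a ha, h, inv_one, one_mul]
        rw [pt_eq π h4, hπ] at h5
        have h6 : a⁻¹ * g ∈ L := hL ▸ le_iSup A (s : V) h5
        have h7 := mul_mem ha h6
        rwa [mul_inv_cancel_left] at h7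
      refine sub_q hC hM (hAc.toF hC) hT hact hz hE hEr hEt hV hab hSb U hLU ?_
      let f : U →* P := ρ.comp U.subtype
      have hf : ∀ g ∈ L.subgroupOf U, f g = 1 := fun g hg => hρL _ hg
      refine hC.base.of_injective _ _ (QuotientGroup.lift _ f hf) ?_ hP
      rw [injective_iff_map_eq_one]
      intro q hq
      obtain ⟨g, rfl⟩ := QuotientGroup.mk_surjective q
      exact (QuotientGroup.eq_one_iff g).2 (hker _ g.2 hq)
    have hULB : U ≤ LB z := by
      intro g hg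
      rw [hU] at hg
      have h1 : sm hS g s = s := hg
      obtain ⟨a, ha, h3⟩ := sm_spec hS g s
      rw [h1] at h3
      have h4 : a⁻¹ * g ∈ LB z := hlc (by
        show (a⁻¹ * g) • (s : V) = s
        rw [mul_smul, h3, inv_smul_smul])
      have h5 := mul_mem (hLLB ha) h4
      rwa [mul_inv_cancel_left] at h5
    refine balN (G := U) (V := V) (T := T) hC hM hAc hT (fun g u v h => hact g u v h)
      ⟨z ^ n0, hLU hzL⟩ ?_ ?_ ?_
    · intro g
      obtain ⟨m, k, hm, hmk, h⟩ := LB_out (hULB g.2)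
      refine ⟨m, k, hm, hmk, Subtype.ext ?_⟩
      show (g : G) * (z ^ n0) ^ m * (g : G)⁻¹ = (z ^ n0) ^ k
      rw [← zpow_mul, ← zpow_mul, mul_comm n0 m, mul_comm n0 k, zpow_mul, zpow_mul, ← h, conj_zpow]
    · intro u v huv
      obtain ⟨n, hn, h2, h3, h4⟩ := hE u v huv
      refine ⟨n, hn, ?_, ?_, ?_⟩
      · show (z ^ n0) ^ n • u = u
        rw [← zpow_mul, mul_comm, zpow_mul]
        exact zpow_fix h2 _
      · show (z ^ n0) ^ n • v = v
        rw [← zpow_mul, mul_comm, zpow_mul]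
        exact zpow_fix h3 _
      · have h5 : Subgroup.zpowers ((⟨z ^ n0, hLU hzL⟩ : U) ^ n) =
            (Subgroup.zpowers ((z ^ n0) ^ n)).comap U.subtype := zp_sub (H := U) _ _
        rw [h5, Subgroup.relIndex_comap, ← zpow_mul, mul_comm, zpow_mul]
        have h6 := relIndex_zpow (z ^ n) n0 hn0 _ h4
        refine fun h7 => h6 (Subgroup.relIndex_eq_zero_of_le_right ?_ h7)
        rintro _ ⟨g, ⟨hg1, hg2⟩, rfl⟩
        exact ⟨hg1, hg2⟩
    · intro w
      exact C_stab hC U w (hV w)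
  · intro g
    obtain ⟨M, hMM⟩ : ∃ M : Subgroup G, M = L ⊔ Subgroup.zpowers g := ⟨_, rfl⟩
    rw [← hMM]
    have hLM : L ≤ M := hMM ▸ le_sup_left
    have hcom' : C (M ⧸ L.subgroupOf M) := by
      refine C_comm hM ?_
      intro p q
      obtain ⟨⟨x, hx⟩, rfl⟩ := QuotientGroup.mk_surjective p
      obtain ⟨⟨y, hy⟩, rfl⟩ := QuotientGroup.mk_surjective q
      rw [← QuotientGroup.mk_mul, ← QuotientGroup.mk_mul]
      refine QuotientGroup.eq.2 ?_
      rw [Subgroup.mem_subgroupOf]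
      rw [hMM] at hx hy
      obtain ⟨a, ha, _, ⟨i, rfl⟩, rfl⟩ := mem_sup_normal.1 hx
      obtain ⟨b, hb, _, ⟨j, rfl⟩, rfl⟩ := mem_sup_normal.1 hy
      show (a * g ^ i * (b * g ^ j))⁻¹ * (b * g ^ j * (a * g ^ i)) ∈ L
      rw [← QuotientGroup.eq_one_iff]
      have h1 : (((a * g ^ i * (b * g ^ j))⁻¹ * (b * g ^ j * (a * g ^ i)) : G) : G ⧸ L) =
          (((a : G) : G ⧸ L) * (g : G ⧸ L) ^ i * ((b : G ⧸ L) * (g : G ⧸ L) ^ j))⁻¹ *
          ((b : G ⧸ L) * (g : G ⧸ L) ^ j * ((a : G ⧸ L) * (g : G ⧸ L) ^ i)) := rfl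
      rw [h1, (QuotientGroup.eq_one_iff a).2 ha, (QuotientGroup.eq_one_iff b).2 hb, one_mul,
        one_mul, ← zpow_add, ← zpow_add, add_comm j i, inv_mul_cancel]
    exact sub_q hC hM (hAc.toF hC) hT hact hz hE hEr hEt hV hab hSb M hLM hcom'

end unb

end Pool.Agent.N509.OM
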